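import Mathlib
import Pool.Agent.L0h42.CL.Stm

/-! PV: Parseval's identity in residue classes. -/

set_option autoImplicit false

namespace Pool.Agent.L0h75.CL
open Finset
open Pool.Agent.L0h42.TB Pool.Agent.L0h42.CL
open Pool.Agent.H373R2.T7
open Pool.Agent.H807R2.Dav

/-! ### the distance to the nearest integer -/

lemma nd_eq (x : ℝ) : nd x = ‖((x : ℝ) : UnitAddCircle)‖ := by
  unfold nd
  exact UnitAddCircle.norm_eq.symm

lemma nd_cont : Continuous nd := by
  have : nd = fun x : ℝ => ‖((x : ℝ) : UnitAddCircle)‖ := funext nd_eq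
  rw [this]
  exact continuous_norm.comp (AddCircle.continuous_mk' (1 : ℝ))

lemma nd_add_int (x : ℝ) (n : ℤ) : nd (x + n) = nd x := by
  unfold nd
  rw [round_add_intCast]
  congr 1
  push_cast
  ring

lemma nd_nonneg (x : ℝ) : 0 ≤ nd x := abs_nonneg _

lemma mn_cont (V : ℕ) : Continuous (mn V) := by
  unfold mn
  apply Continuous.div continuous_const
  · exact continuous_const.max (continuous_const.mul nd_cont)
  · intro x
    have : (1 : ℝ) ≤ max 1 (V * nd x) := le_max_left _ _
    linarith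

lemma mn_add_int (V : ℕ) (x : ℝ) (n : ℤ) : mn V (x + n) = mn V x := by
  unfold mn
  rw [nd_add_int]

lemma WD_cont (a0 : ℤ) (T D : ℕ) : Continuous (WD a0 T D) := by
  unfold WD
  apply continuous_const.add
  apply continuous_const.mul
  apply continuous_finset_sum
  intro j _
  exact (mn_cont _).comp (continuous_const.mul continuous_id)

lemma WD_per (a0 : ℤ) (T D : ℕ) (hD : 1 ≤ D) (α : ℝ) : WD a0 T D (α + 1 / D) = WD a0 T D α := by
  unfold WD
  congr 2
  apply sum_congr rfl
  intro j _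
  have hD0 : (D : ℝ) ≠ 0 := by positivity
  have e : 2 * (a0 : ℝ) * (D : ℝ) ^ 2 * j * (α + 1 / D) = 2 * a0 * (D : ℝ) ^ 2 * j * α + ((2 * a0 * D * j : ℤ) : ℝ) := by
    push_cast
    field_simp
  rw [e, mn_add_int]

/-! ### orthogonality -/

lemma nsq {ι : Type*} (I : Finset ι) (w : ι → ℝ) (f : ι → ℤ) (α : ℝ) :
    ‖∑ i ∈ I, ((w i : ℝ) : ℂ) * ee ((f i : ℝ) * α)‖ ^ 2 =
      ∑ i ∈ I, ∑ j ∈ I, w i * w j * Real.cos (2 * Real.pi * ((f i : ℝ) - f j) * α) := by
  have hre : ∀ i, (((w i : ℝ) : ℂ) * ee ((f i : ℝ) * α)).re = w i * Real.cos (2 * Real.pi * ((f i : ℝ) * α)) := by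
    intro i
    rw [ee_eq, Complex.re_ofReal_mul, Complex.exp_ofReal_mul_I_re]
  have him : ∀ i, (((w i : ℝ) : ℂ) * ee ((f i : ℝ) * α)).im = w i * Real.sin (2 * Real.pi * ((f i : ℝ) * α)) := by
    intro i
    rw [ee_eq, Complex.im_ofReal_mul, Complex.exp_ofReal_mul_I_im]
  rw [← Complex.normSq_eq_norm_sq, Complex.normSq_apply, Complex.re_sum, Complex.im_sum]
  simp only [hre, him]
  rw [sum_mul_sum, sum_mul_sum, ← sum_add_distrib]
  refine sum_congr rfl fun i _ => ?_
  rw [← sum_add_distrib]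
  refine sum_congr rfl fun j _ => ?_
  have e : 2 * Real.pi * ((f i : ℝ) - f j) * α = 2 * Real.pi * ((f i : ℝ) * α) - 2 * Real.pi * ((f j : ℝ) * α) := by ring
  rw [e, Real.cos_sub]
  ring

lemma int_nsq {ι : Type*} (W : ℝ → ℝ) (hW : Continuous W) (I : Finset ι) (w : ι → ℝ) (f : ι → ℤ) :
    ∫ α in (0 : ℝ)..1, W α * ‖∑ i ∈ I, ((w i : ℝ) : ℂ) * ee ((f i : ℝ) * α)‖ ^ 2 =
      ∑ i ∈ I, ∑ j ∈ I, w i * w j * ∫ α in (0 : ℝ)..1, W α * Real.cos (2 * Real.pi * ((f i : ℝ) - f j) * α) := by
  simp only [nsq]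
  have hc : ∀ i j, Continuous fun α : ℝ => W α * Real.cos (2 * Real.pi * ((f i : ℝ) - f j) * α) := by
    intro i j
    exact hW.mul (Real.continuous_cos.comp (continuous_const.mul continuous_id))
  have e : ∀ α : ℝ, W α * ∑ i ∈ I, ∑ j ∈ I, w i * w j * Real.cos (2 * Real.pi * ((f i : ℝ) - f j) * α) =
      ∑ i ∈ I, ∑ j ∈ I, w i * w j * (W α * Real.cos (2 * Real.pi * ((f i : ℝ) - f j) * α)) := by
    intro α
    rw [mul_sum]
    refine sum_congr rfl fun i _ => ?_
    rw [mul_sum]
    refine sum_congr rfl fun j _ => ?_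
    ring
  simp only [e]
  rw [intervalIntegral.integral_finset_sum]
  · refine sum_congr rfl fun i _ => ?_
    rw [intervalIntegral.integral_finset_sum]
    · refine sum_congr rfl fun j _ => ?_
      rw [intervalIntegral.integral_const_mul]
    · intro j _
      exact (continuous_const.mul (hc i j)).intervalIntegrable _ _
  · intro i _
    exact (continuous_finset_sum _ fun j _ => continuous_const.mul (hc i j)).intervalIntegrable _ _

/-- the shift -/
lemma int_shift (g : ℝ → ℝ) (hg : Function.Periodic g 1) (c : ℝ) :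
    ∫ α in (0 : ℝ)..1, g (α + c) = ∫ α in (0 : ℝ)..1, g α := by
  rw [intervalIntegral.integral_comp_add_right]
  have h := hg.intervalIntegral_add_eq (0 + c) 0
  rw [show (0 : ℝ) + c + 1 = 1 + c by ring, show (0 : ℝ) + 1 = 1 by ring] at h
  exact h

lemma per_nat {W : ℝ → ℝ} {D : ℕ} (hD : 1 ≤ D) (hp : ∀ α, W (α + 1 / D) = W α) : Function.Periodic W 1 := by
  have h1 : Function.Periodic W (1 / D) := hp
  have h2 := h1.nat_mul D
  have hD0 : (D : ℝ) ≠ 0 := by positivity
  rwa [mul_one_div_cancel hD0] at h2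

lemma K_zero (W : ℝ → ℝ) (hW : Continuous W) (D : ℕ) (hD : 1 ≤ D) (hp : ∀ α, W (α + 1 / D) = W α) (m : ℤ)
    (hm : ¬ (D : ℤ) ∣ m) : ∫ α in (0 : ℝ)..1, W α * Real.cos (2 * Real.pi * m * α) = 0 := by
  have hD0 : (D : ℝ) ≠ 0 := by positivity
  have hp1 := per_nat hD hp
  set θ := 2 * Real.pi * m * (1 / (D : ℝ)) with hθ
  set C := ∫ α in (0 : ℝ)..1, W α * Real.cos (2 * Real.pi * m * α) with hC
  set S := ∫ α in (0 : ℝ)..1, W α * Real.sin (2 * Real.pi * m * α) with hS
  have hcc : Continuous fun α : ℝ => W α * Real.cos (2 * Real.pi * m * α) :=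
    hW.mul (Real.continuous_cos.comp (continuous_const.mul continuous_id))
  have hcs : Continuous fun α : ℝ => W α * Real.sin (2 * Real.pi * m * α) :=
    hW.mul (Real.continuous_sin.comp (continuous_const.mul continuous_id))
  have pc : Function.Periodic (fun α : ℝ => W α * Real.cos (2 * Real.pi * m * α)) 1 := by
    intro α
    show W (α + 1) * Real.cos (2 * Real.pi * m * (α + 1)) = W α * Real.cos (2 * Real.pi * m * α)
    rw [hp1 α, show 2 * Real.pi * (m : ℝ) * (α + 1) = 2 * Real.pi * m * α + m * (2 * Real.pi) by ring,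
      Real.cos_add_int_mul_two_pi]
  have ps : Function.Periodic (fun α : ℝ => W α * Real.sin (2 * Real.pi * m * α)) 1 := by
    intro α
    show W (α + 1) * Real.sin (2 * Real.pi * m * (α + 1)) = W α * Real.sin (2 * Real.pi * m * α)
    rw [hp1 α, show 2 * Real.pi * (m : ℝ) * (α + 1) = 2 * Real.pi * m * α + m * (2 * Real.pi) by ring,
      Real.sin_add_int_mul_two_pi]
  have e1 : C = Real.cos θ * C - Real.sin θ * S := by
    have h := int_shift _ pc (1 / (D : ℝ))
    rw [← hC] at h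
    have e : (fun α : ℝ => W (α + 1 / (D : ℝ)) * Real.cos (2 * Real.pi * m * (α + 1 / (D : ℝ)))) = fun α =>
        Real.cos θ * (W α * Real.cos (2 * Real.pi * m * α)) - Real.sin θ * (W α * Real.sin (2 * Real.pi * m * α)) := by
      funext α
      rw [hp α, show 2 * Real.pi * (m : ℝ) * (α + 1 / (D : ℝ)) = 2 * Real.pi * m * α + θ by rw [hθ]; ring, Real.cos_add]
      ring
    have h' : (∫ α in (0 : ℝ)..1, (Real.cos θ * (W α * Real.cos (2 * Real.pi * m * α)) -
        Real.sin θ * (W α * Real.sin (2 * Real.pi * m * α)))) = C := by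
      rw [← h]
      exact congrArg (fun g : ℝ → ℝ => ∫ α in (0 : ℝ)..1, g α) e.symm
    have i1 : IntervalIntegrable (fun α : ℝ => Real.cos θ * (W α * Real.cos (2 * Real.pi * m * α))) MeasureTheory.volume 0 1 :=
      Continuous.intervalIntegrable (continuous_const.mul hcc) 0 1
    have i2 : IntervalIntegrable (fun α : ℝ => Real.sin θ * (W α * Real.sin (2 * Real.pi * m * α))) MeasureTheory.volume 0 1 :=
      Continuous.intervalIntegrable (continuous_const.mul hcs) 0 1
    have i3 := intervalIntegral.integral_sub i1 i2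
    rw [intervalIntegral.integral_const_mul, intervalIntegral.integral_const_mul, ← hC, ← hS] at i3
    exact h'.symm.trans i3
  have e2 : S = Real.sin θ * C + Real.cos θ * S := by
    have h := int_shift _ ps (1 / (D : ℝ))
    rw [← hS] at h
    have e : (fun α : ℝ => W (α + 1 / (D : ℝ)) * Real.sin (2 * Real.pi * m * (α + 1 / (D : ℝ)))) = fun α =>
        Real.sin θ * (W α * Real.cos (2 * Real.pi * m * α)) + Real.cos θ * (W α * Real.sin (2 * Real.pi * m * α)) := by
      funext α
      rw [hp α, show 2 * Real.pi * (m : ℝ) * (α + 1 / (D : ℝ)) = 2 * Real.pi * m * α + θ by rw [hθ]; ring, Real.sin_add]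
      ring
    have h' : (∫ α in (0 : ℝ)..1, (Real.sin θ * (W α * Real.cos (2 * Real.pi * m * α)) +
        Real.cos θ * (W α * Real.sin (2 * Real.pi * m * α)))) = S := by
      rw [← h]
      exact congrArg (fun g : ℝ → ℝ => ∫ α in (0 : ℝ)..1, g α) e.symm
    have i1 : IntervalIntegrable (fun α : ℝ => Real.sin θ * (W α * Real.cos (2 * Real.pi * m * α))) MeasureTheory.volume 0 1 :=
      Continuous.intervalIntegrable (continuous_const.mul hcc) 0 1
    have i2 : IntervalIntegrable (fun α : ℝ => Real.cos θ * (W α * Real.sin (2 * Real.pi * m * α))) MeasureTheory.volume 0 1 :=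
      Continuous.intervalIntegrable (continuous_const.mul hcs) 0 1
    have i3 := intervalIntegral.integral_add i1 i2
    rw [intervalIntegral.integral_const_mul, intervalIntegral.integral_const_mul, ← hC, ← hS] at i3
    exact h'.symm.trans i3
  have hne : Real.cos θ ≠ 1 := by
    intro h
    rw [Real.cos_eq_one_iff] at h
    obtain ⟨n, hn⟩ := h
    apply hm
    refine ⟨n, ?_⟩
    have hpi : (2 * Real.pi) ≠ 0 := by positivity
    have h3 : (n : ℝ) = m * (1 / D) := by
      apply mul_right_cancel₀ hpi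
      rw [hn, hθ]
      ring
    have h4 : (m : ℝ) = D * n := by
      rw [h3]
      field_simp
    exact_mod_cast h4
  have h5 : (1 - Real.cos θ) * C = 0 := by
    have hsc := Real.sin_sq_add_cos_sq θ
    have a1 : (1 - Real.cos θ) * C + Real.sin θ * S = 0 := by linarith
    have a2 : (1 - Real.cos θ) * S - Real.sin θ * C = 0 := by linarith
    have a3 : ((1 - Real.cos θ) ^ 2 + Real.sin θ ^ 2) * C = 0 := by
      linear_combination (1 - Real.cos θ) * a1 - Real.sin θ * a2
    have a4 : (1 - Real.cos θ) ^ 2 + Real.sin θ ^ 2 = 2 * (1 - Real.cos θ) := by linarith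
    rw [a4] at a3
    linarith
  rcases mul_eq_zero.1 h5 with h6 | h6
  · exact absurd (by linarith) hne
  · exact h6

lemma int_cos (m : ℤ) : ∫ α in (0 : ℝ)..1, (1 : ℝ) * Real.cos (2 * Real.pi * m * α) = if m = 0 then 1 else 0 := by
  split_ifs with h
  · subst h
    simp
  · have hn : m.natAbs + 1 ≥ 1 := by omega
    apply K_zero (fun _ => 1) continuous_const (m.natAbs + 1) hn (fun _ => rfl) m
    intro hd
    have h1 := Int.natCast_dvd.1 hd
    have h2 := Nat.le_of_dvd (Int.natAbs_pos.2 h) h1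
    omega

open Classical in
/-- Bessel's inequality -/
lemma bessel {ι : Type*} (I : Finset ι) (w : ι → ℝ) (f : ι → ℤ) (A : Finset ℤ) :
    ∑ a ∈ A, (∑ i ∈ I.filter (fun i => f i = a), w i) ^ 2 ≤
      ∫ α in (0 : ℝ)..1, ‖∑ i ∈ I, ((w i : ℝ) : ℂ) * ee ((f i : ℝ) * α)‖ ^ 2 := by
  have h1 := int_nsq (fun _ => 1) continuous_const I w f
  simp only [one_mul] at h1
  rw [h1]
  have h2 : ∀ i j, ∫ α in (0 : ℝ)..1, Real.cos (2 * Real.pi * ((f i : ℝ) - f j) * α) = if f i = f j then 1 else 0 := by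
    intro i j
    have h3 := int_cos (f i - f j)
    simp only [one_mul] at h3
    push_cast at h3
    rw [h3]
    simp only [sub_eq_zero]
  simp only [h2]
  have h4 : ∑ a ∈ A ∪ I.image f, (∑ i ∈ I.filter (fun i => f i = a), w i) ^ 2 =
      ∑ i ∈ I, ∑ j ∈ I, w i * w j * (if f i = f j then 1 else 0) := by
    have g1 : ∀ a ∈ A ∪ I.image f, (∑ i ∈ I.filter (fun i => f i = a), w i) ^ 2 =
        ∑ i ∈ I, ∑ j ∈ I, (if a = f i then (w i * w j * (if f i = f j then 1 else 0)) else 0) := by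
      intro a _
      rw [sq, sum_filter, sum_mul_sum]
      refine sum_congr rfl fun i _ => sum_congr rfl fun j _ => ?_
      by_cases g2 : f i = a
      · by_cases g3 : f j = a
        · rw [if_pos g2, if_pos g3, if_pos g2.symm, if_pos (g2.trans g3.symm), mul_one]
        · rw [if_neg g3, mul_zero, if_pos g2.symm, if_neg (fun h => g3 (h.symm.trans g2)), mul_zero]
      · rw [if_neg g2, zero_mul, if_neg (fun h => g2 h.symm)]
    rw [sum_congr rfl g1, sum_comm]
    refine sum_congr rfl fun i hi => ?_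
    rw [sum_comm]
    refine sum_congr rfl fun j _ => ?_
    rw [sum_ite_eq' (A ∪ I.image f) (f i), if_pos (mem_union_right _ (mem_image_of_mem f hi))]
  rw [← h4]
  exact sum_le_sum_of_subset_of_nonneg subset_union_left fun a _ _ => sq_nonneg _

lemma ee_cont (c : ℝ) : Continuous fun α : ℝ => ee (c * α) := by
  unfold ee
  fun_prop

lemma ee_neg (x : ℝ) : ee (-x) = (starRingEnd ℂ) (ee x) := by
  unfold ee
  rw [← Complex.exp_conj]
  congr 1
  simp only [map_mul, Complex.conj_I, Complex.conj_ofReal, map_ofNat]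
  push_cast
  ring

theorem t_PV (hWY : S_WY) : S_PV := by
  classical
  intro a0 b0 c0 G T1 T2 T D X Y M Δ P hD hT hTT hG hY hP hM
  set W := WD a0 T D with hWd
  have hWc : Continuous W := WD_cont a0 T D
  have hWp : ∀ α, W (α + 1 / D) = W α := WD_per a0 T D hD
  -- the sums in the residue classes
  set Fu : ℕ → ℝ → ℂ := fun u α => ∑ n ∈ (Icc 1 Y).filter (fun n => n % D = u), ((Δ n : ℝ) : ℂ) * ee (((n : ℤ) : ℝ) * α) with hFu
  have hFc : ∀ u, Continuous (Fu u) := by
    intro u
    apply continuous_finset_sum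
    intro n _
    exact continuous_const.mul (ee_cont _)
  -- one pair
  have h1 : ∀ y ∈ P, ∑ a ∈ Icc 1 X, (∑ t ∈ (Ioc T1 T2).filter (fun t => t % D = y.1 ∧ (a + G t) % D = y.2), Δ (a + G t)) ^ 2 ≤
      ∫ α in (0 : ℝ)..1, W α * ‖Fu y.2 α‖ ^ 2 := by
    intro y _
    set I := (Icc 1 Y).filter (fun n => n % D = y.2) ×ˢ (Ioc T1 T2).filter (fun t => t % D = y.1) with hI
    have g1 := bessel I (fun i => Δ i.1) (fun i => (i.1 : ℤ) - G i.2) ((Icc 1 X).image (fun a : ℕ => (a : ℤ)))
    rw [sum_image (fun a _ b _ hab => by exact_mod_cast hab)] at g1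
    have g2 : ∀ a ∈ Icc 1 X, (∑ i ∈ I.filter (fun i => (i.1 : ℤ) - G i.2 = (a : ℤ)), Δ i.1) =
        ∑ t ∈ (Ioc T1 T2).filter (fun t => t % D = y.1 ∧ (a + G t) % D = y.2), Δ (a + G t) := by
      intro a ha
      rw [mem_Icc] at ha
      symm
      apply sum_bij (fun t _ => ((a + G t, t) : ℕ × ℕ))
      · intro t ht
        rw [mem_filter] at ht
        have hy := hY t ht.1
        rw [mem_filter, hI, mem_product, mem_filter, mem_filter, mem_Icc]
        refine ⟨⟨⟨⟨by show 1 ≤ a + G t; omega, by show a + G t ≤ Y; omega⟩, ht.2.2⟩, ht.1, ht.2.1⟩, ?_⟩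
        push_cast
        ring
      · intro t1 _ t2 _ h
        exact congrArg Prod.snd h
      · intro i hi
        rw [mem_filter, hI, mem_product, mem_filter, mem_filter] at hi
        obtain ⟨⟨⟨q1, q2⟩, q3, q4⟩, q5⟩ := hi
        have q6 : i.1 = a + G i.2 := by omega
        refine ⟨i.2, ?_, ?_⟩
        · rw [mem_filter]
          exact ⟨q3, q4, by rw [← q6]; exact q2⟩
        · exact Prod.ext q6.symm rfl
      · intro t _
        rfl
    rw [sum_congr rfl fun a ha => by rw [g2 a ha]] at g1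
    refine g1.trans ?_
    set St : ℝ → ℂ := fun α => ∑ t ∈ (Ioc T1 T2).filter (fun t => t % D = y.1), ee ((G t : ℝ) * α) with hSt
    have hSc : Continuous St := by
      apply continuous_finset_sum
      intro t _
      exact ee_cont _
    have g3 : ∀ α : ℝ, ‖∑ i ∈ I, ((Δ i.1 : ℝ) : ℂ) * ee ((((i.1 : ℤ) - G i.2 : ℤ) : ℝ) * α)‖ ^ 2 =
        ‖St α‖ ^ 2 * ‖Fu y.2 α‖ ^ 2 := by
      intro α
      have g4 : ∑ i ∈ I, ((Δ i.1 : ℝ) : ℂ) * ee ((((i.1 : ℤ) - G i.2 : ℤ) : ℝ) * α) =
          Fu y.2 α * (starRingEnd ℂ) (St α) := by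
        rw [hI, sum_product, hFu, hSt]
        simp only [map_sum]
        rw [sum_mul_sum]
        refine sum_congr rfl fun n _ => sum_congr rfl fun t _ => ?_
        rw [← ee_neg, mul_assoc, ← ee_add]
        congr 2
        push_cast
        ring
      rw [g4, norm_mul, RCLike.norm_conj]
      ring
    simp only [g3]
    apply intervalIntegral.integral_mono_on (by norm_num)
    · exact ((hSc.norm.pow 2).mul ((hFc y.2).norm.pow 2)).intervalIntegrable _ _
    · exact (hWc.mul ((hFc y.2).norm.pow 2)).intervalIntegrable _ _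
    · intro α _
      apply mul_le_mul_of_nonneg_right _ (sq_nonneg _)
      have g5 := hWY a0 b0 T1 T2 T D y.1 α hD hT hTT
      have g6 : St α = ee (c0 * α) * ∑ t ∈ (Ioc T1 T2).filter (fun t => t % D = y.1), ee ((gz a0 b0 t : ℝ) * α) := by
        rw [hSt, mul_sum]
        refine sum_congr rfl fun t ht => ?_
        rw [mem_filter] at ht
        rw [← ee_add]
        congr 1
        have g7 : ((G t : ℤ) : ℝ) = ((gz a0 b0 t + c0 : ℤ) : ℝ) := by rw [hG t ht.1]
        push_cast at g7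
        rw [g7]
        ring
      rw [g6, norm_mul, norm_ee, one_mul]
      exact g5
  -- the sum over the pairs
  have hI0 : ∀ u, 0 ≤ ∫ α in (0 : ℝ)..1, W α * ‖Fu u α‖ ^ 2 := by
    intro u
    apply intervalIntegral.integral_nonneg (by norm_num)
    intro α _
    apply mul_nonneg _ (sq_nonneg _)
    rw [hWd]
    unfold WD mn
    apply add_nonneg (Nat.cast_nonneg _)
    apply mul_nonneg (by norm_num)
    apply sum_nonneg
    intro j _
    positivity
  have h2 : ∑ y ∈ P, ∫ α in (0 : ℝ)..1, W α * ‖Fu y.2 α‖ ^ 2 ≤ ∑ u ∈ range D, (M : ℝ) * ∫ α in (0 : ℝ)..1, W α * ‖Fu u α‖ ^ 2 := by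
    have hmap : ∀ y ∈ P, y.2 ∈ range D := fun y hy => (mem_product.1 (hP hy)).2
    rw [← sum_fiberwise_of_maps_to hmap]
    apply sum_le_sum
    intro u _
    have g1 : ∑ y ∈ P.filter (fun y => y.2 = u), ∫ α in (0 : ℝ)..1, W α * ‖Fu y.2 α‖ ^ 2 =
        ((P.filter (fun y => y.2 = u)).card : ℝ) * ∫ α in (0 : ℝ)..1, W α * ‖Fu u α‖ ^ 2 := by
      rw [← nsmul_eq_mul, ← sum_const]
      refine sum_congr rfl fun y hy => ?_
      rw [(mem_filter.1 hy).2]
    rw [g1]
    exact mul_le_mul_of_nonneg_right (by exact_mod_cast hM u) (hI0 u)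
  -- orthogonality
  have h3 : ∑ u ∈ range D, ∫ α in (0 : ℝ)..1, W α * ‖Fu u α‖ ^ 2 =
      ∫ α in (0 : ℝ)..1, W α * ‖∑ n ∈ Icc 1 Y, ((Δ n : ℝ) : ℂ) * ee (((n : ℤ) : ℝ) * α)‖ ^ 2 := by
    rw [int_nsq W hWc (Icc 1 Y) Δ (fun n => (n : ℤ))]
    have g1 : ∀ u ∈ range D, ∫ α in (0 : ℝ)..1, W α * ‖Fu u α‖ ^ 2 =
        ∑ i ∈ Icc 1 Y, ∑ j ∈ Icc 1 Y, (if u = i % D then (if i % D = j % D then Δ i * Δ j *
          ∫ α in (0 : ℝ)..1, W α * Real.cos (2 * Real.pi * (((i : ℤ) : ℝ) - ((j : ℤ) : ℝ)) * α) else 0) else 0) := by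
      intro u _
      rw [hFu]
      simp only
      rw [int_nsq W hWc ((Icc 1 Y).filter (fun n => n % D = u)) Δ (fun n => (n : ℤ)), sum_filter]
      refine sum_congr rfl fun i _ => ?_
      by_cases q1 : i % D = u
      · rw [if_pos q1, sum_filter]
        refine sum_congr rfl fun j _ => ?_
        rw [if_pos q1.symm, q1]
        by_cases q2 : j % D = u
        · rw [if_pos q2, if_pos q2.symm]
        · rw [if_neg q2, if_neg fun h => q2 h.symm]
      · rw [if_neg q1]
        symm
        apply sum_eq_zero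
        intro j _
        rw [if_neg fun h => q1 h.symm]
    rw [sum_congr rfl g1, sum_comm]
    refine sum_congr rfl fun i _ => ?_
    rw [sum_comm]
    refine sum_congr rfl fun j _ => ?_
    rw [sum_ite_eq' (range D) (i % D), if_pos (mem_range.2 (Nat.mod_lt _ hD))]
    split_ifs with q
    · rfl
    · have g2 := K_zero W hWc D hD hWp ((i : ℤ) - j) (by
        intro hd
        apply q
        have : (j : ℤ) ≡ i [ZMOD D] := Int.modEq_iff_dvd.2 hd
        exact (Int.natCast_modEq_iff.1 this).symm)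
      push_cast at g2 ⊢
      rw [g2, mul_zero]
  refine (sum_le_sum h1).trans (h2.trans (le_of_eq ?_))
  rw [← mul_sum, h3]
  simp only [Int.cast_natCast]

end Pool.Agent.L0h75.CL
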