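import Mathlib
import Pool.Agent.L0h42.CL.Stm

/-! R2: the number of root classes, on average over the constant term. -/

set_option autoImplicit false

namespace Pool.Agent.L0h75.CL
open Finset
open Pool.Agent.L0h42.TB Pool.Agent.L0h42.CL
open Pool.Agent.H373R2.T7

lemma prod_pos' {P : Finset ℕ} (hP : ∀ p ∈ P, p.Prime) : 0 < ∏ p ∈ P, p :=
  Finset.prod_pos fun p hp => (hP p hp).pos

lemma cop_prod {P : Finset ℕ} (hP : ∀ p ∈ P, p.Prime) {q : ℕ} (hq : q.Prime) (hqP : q ∉ P) :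
    q.Coprime (∏ p ∈ P, p) := by
  rw [Nat.coprime_prod_right_iff]
  intro p hp
  exact (Nat.coprime_primes hq (hP p hp)).2 fun h => hqP (h ▸ hp)

/-- the simultaneous congruences are one congruence -/
lemma crt (P : Finset ℕ) (hP : ∀ p ∈ P, p.Prime) (f : ℕ → ℤ) :
    ∃ r : ℕ, ∀ a : ℤ, (∀ p ∈ P, (p : ℤ) ∣ a + f p) ↔ a ≡ r [ZMOD ((∏ p ∈ P, p : ℕ) : ℤ)] := by
  classical
  induction P using Finset.induction_on with
  | empty =>
    refine ⟨0, fun a => ?_⟩
    simp [Int.modEq_one]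
  | insert q P hq ih =>
    obtain ⟨r, hr⟩ := ih fun p hp => hP p (mem_insert_of_mem hp)
    have hqp := hP q (mem_insert_self q P)
    have hc := cop_prod (fun p hp => hP p (mem_insert_of_mem hp)) hqp hq
    have hq0 : (0 : ℤ) < q := by exact_mod_cast hqp.pos
    obtain ⟨k, hk1, hk2⟩ := Nat.chineseRemainder hc ((-f q) % (q : ℤ)).toNat r
    refine ⟨k, fun a => ?_⟩
    rw [prod_insert hq, Nat.cast_mul]
    rw [← Int.modEq_and_modEq_iff_modEq_mul (by rw [Int.natAbs_natCast, Int.natAbs_natCast]; exact hc)]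
    have h1 : (k : ℤ) ≡ -f q [ZMOD q] := by
      have h2 := Int.natCast_modEq_iff.2 hk1
      rw [Int.toNat_of_nonneg (Int.emod_nonneg _ hq0.ne')] at h2
      exact h2.trans (Int.mod_modEq _ _)
    have h2 : (k : ℤ) ≡ r [ZMOD ((∏ p ∈ P, p : ℕ) : ℤ)] := Int.natCast_modEq_iff.2 hk2
    have h3 : (q : ℤ) ∣ a + f q ↔ a ≡ k [ZMOD q] := by
      constructor
      · intro h
        have : a ≡ -f q [ZMOD q] := by
          apply Int.ModEq.symm
          rw [Int.modEq_iff_dvd]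
          simpa using h
        exact this.trans h1.symm
      · intro h
        have := (h.trans h1).symm
        rw [Int.modEq_iff_dvd] at this
        simpa using this
    constructor
    · intro h
      refine ⟨h3.1 (h q (mem_insert_self q P)), ?_⟩
      exact ((hr a).1 fun p hp => h p (mem_insert_of_mem hp)).trans h2.symm
    · rintro ⟨g1, g2⟩ p hp
      rcases mem_insert.1 hp with rfl | hp
      · exact h3.2 g1
      · exact (hr a).2 (g2.trans h2) p hp

/-- the integers in a residue class -/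
lemma cnt_cls (X D r : ℕ) (hD : 0 < D) :
    |((((Icc 1 X).filter (fun a : ℕ => (a : ℤ) ≡ r [ZMOD (D : ℤ)])).card : ℝ)) - (X : ℝ) / D| ≤ 1 := by
  have e : (Icc 1 X).filter (fun a : ℕ => (a : ℤ) ≡ r [ZMOD (D : ℤ)]) =
      (Ioc 0 X).filter (fun a : ℕ => a ≡ r [MOD D]) := by
    ext a
    simp only [mem_filter, mem_Icc, mem_Ioc, Int.natCast_modEq_iff]
    have h01 : 1 ≤ a ↔ 0 < a := Iff.rfl
    rw [h01]
  rw [e]
  have h := Nat.Ioc_filter_modEq_card 0 X hD r
  have hQ : ((((Ioc 0 X).filter (fun a : ℕ => a ≡ r [MOD D])).card : ℤ)) =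
      max (⌊((X : ℚ) - r) / D⌋ - ⌊((0 : ℚ) - r) / D⌋) 0 := by
    have h' := h
    push_cast at h' ⊢
    exact h'
  have hD' : (0 : ℚ) < D := by exact_mod_cast hD
  have f1 := Int.floor_le (((X : ℚ) - r) / D)
  have f2 := Int.lt_floor_add_one (((X : ℚ) - r) / D)
  have f3 := Int.floor_le (((0 : ℚ) - r) / D)
  have f4 := Int.lt_floor_add_one (((0 : ℚ) - r) / D)
  have e2 : ((X : ℚ) - r) / D - ((0 : ℚ) - r) / D = X / D := by ring
  have hX : (0 : ℚ) ≤ X / D := by positivity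
  have key : |(((((Ioc 0 X).filter (fun a : ℕ => a ≡ r [MOD D])).card : ℤ)) : ℚ) - (X : ℚ) / D| ≤ 1 := by
    rw [hQ]
    push_cast
    rcases max_cases ((⌊((X : ℚ) - r) / D⌋ : ℚ) - (⌊((0 : ℚ) - r) / D⌋ : ℚ)) 0 with ⟨g1, g2⟩ | ⟨g1, g2⟩
    · rw [g1, abs_le]
      constructor <;> linarith
    · rw [g1, abs_le]
      constructor <;> linarith
  have key2 : |(((((Ioc 0 X).filter (fun a : ℕ => a ≡ r [MOD D])).card : ℚ)) : ℚ) - (X : ℚ) / D| ≤ 1 := by
    simpa using key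
  have key3 : ((|(((((Ioc 0 X).filter (fun a : ℕ => a ≡ r [MOD D])).card : ℚ)) : ℚ) - (X : ℚ) / D| : ℚ) : ℝ) ≤ ((1 : ℚ) : ℝ) :=
    Rat.cast_le.2 key2
  push_cast at key3
  exact key3

lemma gz_mod (a0 b0 x y : ℤ) (m : ℤ) (h : x ≡ y [ZMOD m]) : gz a0 b0 x ≡ gz a0 b0 y [ZMOD m] := by
  unfold gz
  exact ((h.pow 2).mul_left a0).add (h.mul_left b0)

lemma dvd_gz_iff (a0 b0 x y a : ℤ) (m : ℤ) (h : x ≡ y [ZMOD m]) :
    m ∣ a + gz a0 b0 x ↔ m ∣ a + gz a0 b0 y := by
  have h1 : a + gz a0 b0 x ≡ a + gz a0 b0 y [ZMOD m] := (gz_mod a0 b0 x y m h).add_left a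
  exact h1.dvd_iff

open Classical in
/-- at most two roots -/
lemma roots_le (a0 b0 : ℤ) (p : ℕ) (hp : p.Prime) (h0 : ¬ (p : ℤ) ∣ a0) (a c : ℤ) :
    ((range p).filter (fun τ : ℕ => (p : ℤ) ∣ a + gz a0 b0 (τ + c))).card ≤ 2 := by
  by_contra hcon
  rw [not_le, Finset.two_lt_card] at hcon
  obtain ⟨x, hx, y, hy, w, hw, hxy, hxw, hyw⟩ := hcon
  rw [mem_filter, mem_range] at hx hy hw
  have hpr : Prime (p : ℤ) := Nat.prime_iff_prime_int.1 hp
  have key : ∀ u v : ℕ, u < p → v < p → u ≠ v → (p : ℤ) ∣ a + gz a0 b0 (u + c) → (p : ℤ) ∣ a + gz a0 b0 (v + c) →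
      (p : ℤ) ∣ a0 * (u + v + 2 * c) + b0 := by
    intro u v hu hv huv h1 h2
    have h3 := dvd_sub h1 h2
    have e : (a + gz a0 b0 (u + c)) - (a + gz a0 b0 (v + c)) = ((u : ℤ) - v) * (a0 * (u + v + 2 * c) + b0) := by
      unfold gz
      ring
    rw [e] at h3
    rcases hpr.dvd_or_dvd h3 with h4 | h4
    · exfalso
      have h5 := Int.eq_zero_of_abs_lt_dvd h4 (by rw [abs_lt]; constructor <;> omega)
      omega
    · exact h4
  have g1 := key x y hx.1 hy.1 hxy hx.2 hy.2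
  have g2 := key x w hx.1 hw.1 hxw hx.2 hw.2
  have g3 := dvd_sub g1 g2
  have e : (a0 * ((x : ℤ) + y + 2 * c) + b0) - (a0 * ((x : ℤ) + w + 2 * c) + b0) = a0 * ((y : ℤ) - w) := by ring
  rw [e] at g3
  rcases hpr.dvd_or_dvd g3 with h4 | h4
  · exact h0 h4
  · have h5 := Int.eq_zero_of_abs_lt_dvd h4 (by rw [abs_lt]; constructor <;> omega)
    omega

open Classical in
/-- the number of classes modulo the product of the primes of `P` -/
noncomputable def GP (a0 b0 : ℤ) (P : Finset ℕ) (c : ℕ → ℕ) (a : ℕ) : ℕ :=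
  ((range (∏ p ∈ P, p)).filter (fun τ : ℕ => ∀ p ∈ P, (p : ℤ) ∣ (a : ℤ) + gz a0 b0 (τ + c p))).card

lemma GP_empty (a0 b0 : ℤ) (c : ℕ → ℕ) (a : ℕ) : GP a0 b0 ∅ c a = 1 := by
  unfold GP
  simp

lemma GP_insert (a0 b0 : ℤ) (P : Finset ℕ) (hP : ∀ p ∈ P, p.Prime) (c : ℕ → ℕ) (a q : ℕ) (hq : q.Prime)
    (hqP : q ∉ P) (h0 : ¬ (q : ℤ) ∣ a0) : GP a0 b0 (insert q P) c a ≤ 2 * GP a0 b0 P c a := by
  classical
  have h2 := roots_le a0 b0 q hq h0 a (c q)
  refine le_trans ?_ (Nat.mul_le_mul_right _ h2)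
  unfold GP
  rw [← card_product]
  set M := ∏ p ∈ P, p with hM
  have hM0 : 0 < M := prod_pos' hP
  have hcop : q.Coprime M := cop_prod hP hq hqP
  apply card_le_card_of_injOn (fun τ : ℕ => (τ % q, τ % M))
  · intro τ hτ
    rw [mem_coe, mem_filter, prod_insert hqP, mem_range] at hτ
    rw [mem_coe, mem_product, mem_filter, mem_filter, mem_range, mem_range]
    have e1 : ((τ % q : ℕ) : ℤ) + c q ≡ (τ : ℤ) + c q [ZMOD q] := by
      apply Int.ModEq.add_right
      rw [Int.natCast_mod]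
      exact Int.mod_modEq _ _
    refine ⟨⟨Nat.mod_lt _ hq.pos, ?_⟩, Nat.mod_lt _ hM0, fun p hp => ?_⟩
    · exact (dvd_gz_iff a0 b0 _ _ a q e1).2 (hτ.2 q (mem_insert_self q P))
    · have e2 : ((τ % M : ℕ) : ℤ) + c p ≡ (τ : ℤ) + c p [ZMOD p] := by
        apply Int.ModEq.add_right
        rw [Int.natCast_mod]
        have hd : (p : ℤ) ∣ (M : ℤ) := by exact_mod_cast dvd_prod_of_mem (fun p => p) hp
        exact (Int.mod_modEq (τ : ℤ) (M : ℤ)).of_dvd hd
      exact (dvd_gz_iff a0 b0 _ _ a p e2).2 (hτ.2 p (mem_insert_of_mem hp))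
  · intro τ hτ τ' hτ' h
    rw [mem_coe, mem_filter, prod_insert hqP, mem_range] at hτ hτ'
    have h1 : τ % q = τ' % q := congrArg Prod.fst h
    have h2 : τ % M = τ' % M := congrArg Prod.snd h
    have h3 : τ ≡ τ' [MOD q * M] := (Nat.modEq_and_modEq_iff_modEq_mul hcop).1 ⟨h1, h2⟩
    exact Nat.ModEq.eq_of_lt_of_lt h3 hτ.1 hτ'.1

lemma GP_union (a0 b0 : ℤ) (B : Finset ℕ) (hB : ∀ p ∈ B, p.Prime) (c : ℕ → ℕ) (a : ℕ) (Q : Finset ℕ)
    (hQ : ∀ p ∈ Q, p.Prime ∧ ¬ (p : ℤ) ∣ a0 ∧ p ∉ B) : GP a0 b0 (Q ∪ B) c a ≤ 2 ^ Q.card * GP a0 b0 B c a := by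
  classical
  induction Q using Finset.induction_on with
  | empty => simp
  | insert q Q hq ih =>
    have h1 := ih fun p hp => hQ p (mem_insert_of_mem hp)
    obtain ⟨g1, g2, g3⟩ := hQ q (mem_insert_self q Q)
    rw [insert_union, card_insert_of_notMem hq]
    have h2 := GP_insert a0 b0 (Q ∪ B) (fun p hp => by
      rcases mem_union.1 hp with h | h
      · exact (hQ p (mem_insert_of_mem h)).1
      · exact hB p h) c a q g1 (by
      rw [mem_union, not_or]
      exact ⟨hq, g3⟩) g2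
    calc _ ≤ _ := h2
      _ ≤ 2 * (2 ^ Q.card * GP a0 b0 B c a) := Nat.mul_le_mul_left _ h1
      _ = _ := by ring

/-- disjoint sets of primes -/
lemma GP_pair (a0 b0 : ℤ) (P P' : Finset ℕ) (hP : ∀ p ∈ P, p.Prime) (hP' : ∀ p ∈ P', p.Prime)
    (hd : ∀ p ∈ P, p ∉ P') (c c' : ℕ → ℕ) (X : ℕ) :
    |(∑ a ∈ Icc 1 X, (GP a0 b0 P c a : ℝ) * GP a0 b0 P' c' a) - X| ≤
      ((∏ p ∈ P, p : ℕ) : ℝ) * ((∏ p ∈ P', p : ℕ) : ℝ) := by
  classical
  set M := ∏ p ∈ P, p with hM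
  set M' := ∏ p ∈ P', p with hM'
  have hM0 : 0 < M := prod_pos' hP
  have hM0' : 0 < M' := prod_pos' hP'
  have hMr : (0 : ℝ) < M := by exact_mod_cast hM0
  have hMr' : (0 : ℝ) < M' := by exact_mod_cast hM0'
  have e1 : ∑ a ∈ Icc 1 X, (GP a0 b0 P c a : ℝ) * GP a0 b0 P' c' a =
      ∑ τ ∈ range M, ∑ τ' ∈ range M', (((Icc 1 X).filter (fun a : ℕ =>
        (∀ p ∈ P, (p : ℤ) ∣ (a : ℤ) + gz a0 b0 (τ + c p)) ∧
        (∀ p ∈ P', (p : ℤ) ∣ (a : ℤ) + gz a0 b0 (τ' + c' p)))).card : ℝ) := by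
    have g1 : ∀ a ∈ Icc 1 X, (GP a0 b0 P c a : ℝ) * GP a0 b0 P' c' a =
        ∑ τ ∈ range M, ∑ τ' ∈ range M', (if (∀ p ∈ P, (p : ℤ) ∣ (a : ℤ) + gz a0 b0 (τ + c p)) ∧
        (∀ p ∈ P', (p : ℤ) ∣ (a : ℤ) + gz a0 b0 (τ' + c' p)) then (1 : ℝ) else 0) := by
      intro a _
      unfold GP
      rw [card_filter, card_filter]
      push_cast
      rw [sum_mul_sum]
      refine sum_congr rfl fun τ _ => sum_congr rfl fun τ' _ => ?_
      by_cases h1 : ∀ p ∈ P, (p : ℤ) ∣ (a : ℤ) + gz a0 b0 (τ + c p)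
      · by_cases h2 : ∀ p ∈ P', (p : ℤ) ∣ (a : ℤ) + gz a0 b0 (τ' + c' p)
        · rw [if_pos h1, if_pos h2, if_pos ⟨h1, h2⟩, mul_one]
        · rw [if_neg h2, mul_zero, if_neg fun h => h2 h.2]
      · rw [if_neg h1, zero_mul, if_neg fun h => h1 h.1]
    rw [sum_congr rfl g1, sum_comm]
    refine sum_congr rfl fun τ _ => ?_
    rw [sum_comm]
    refine sum_congr rfl fun τ' _ => ?_
    rw [card_filter]
    push_cast
    rfl
  have e2 : ∀ τ τ' : ℕ, |((((Icc 1 X).filter (fun a : ℕ =>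
        (∀ p ∈ P, (p : ℤ) ∣ (a : ℤ) + gz a0 b0 (τ + c p)) ∧
        (∀ p ∈ P', (p : ℤ) ∣ (a : ℤ) + gz a0 b0 (τ' + c' p)))).card : ℝ)) - X / ((M : ℝ) * M')| ≤ 1 := by
    intro τ τ'
    obtain ⟨r, hr⟩ := crt (P ∪ P') (fun p hp => by
      rcases mem_union.1 hp with h | h
      · exact hP p h
      · exact hP' p h) (fun p => if p ∈ P then gz a0 b0 (τ + c p) else gz a0 b0 (τ' + c' p))
    have hdis : Disjoint P P' := Finset.disjoint_left.2 hd
    rw [prod_union hdis] at hr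
    have h1 := cnt_cls X (M * M') r (Nat.mul_pos hM0 hM0')
    have e3 : (Icc 1 X).filter (fun a : ℕ =>
        (∀ p ∈ P, (p : ℤ) ∣ (a : ℤ) + gz a0 b0 (τ + c p)) ∧
        (∀ p ∈ P', (p : ℤ) ∣ (a : ℤ) + gz a0 b0 (τ' + c' p))) =
        (Icc 1 X).filter (fun a : ℕ => (a : ℤ) ≡ r [ZMOD ((M * M' : ℕ) : ℤ)]) := by
      apply filter_congr
      intro a _
      rw [← hr (a : ℤ)]
      constructor
      · rintro ⟨g1, g2⟩ p hp
        by_cases h : p ∈ P
        · simp only [if_pos h]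
          exact g1 p h
        · simp only [if_neg h]
          exact g2 p ((mem_union.1 hp).resolve_left h)
      · intro g
        constructor
        · intro p hp
          have := g p (mem_union_left _ hp)
          simpa only [if_pos hp] using this
        · intro p hp
          have := g p (mem_union_right _ hp)
          have hn : p ∉ P := fun h => hd p h hp
          simpa only [if_neg hn] using this
    rw [e3]
    push_cast at h1 ⊢
    exact h1
  rw [e1]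
  have e4 : (X : ℝ) = ∑ τ ∈ range M, ∑ τ' ∈ range M', X / ((M : ℝ) * M') := by
    rw [sum_const, sum_const, card_range, card_range, nsmul_eq_mul, nsmul_eq_mul]
    field_simp
  have e5 : (∑ τ ∈ range M, ∑ τ' ∈ range M', (((Icc 1 X).filter (fun a : ℕ =>
        (∀ p ∈ P, (p : ℤ) ∣ (a : ℤ) + gz a0 b0 (τ + c p)) ∧
        (∀ p ∈ P', (p : ℤ) ∣ (a : ℤ) + gz a0 b0 (τ' + c' p)))).card : ℝ)) - X =
      ∑ τ ∈ range M, ∑ τ' ∈ range M', ((((Icc 1 X).filter (fun a : ℕ =>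
        (∀ p ∈ P, (p : ℤ) ∣ (a : ℤ) + gz a0 b0 (τ + c p)) ∧
        (∀ p ∈ P', (p : ℤ) ∣ (a : ℤ) + gz a0 b0 (τ' + c' p)))).card : ℝ) - X / ((M : ℝ) * M')) := by
    conv_lhs => rw [e4]
    rw [← sum_sub_distrib]
    refine sum_congr rfl fun τ _ => ?_
    rw [← sum_sub_distrib]
  rw [e5]
  refine (abs_sum_le_sum_abs _ _).trans ?_
  have e6 : ∀ τ ∈ range M, |∑ τ' ∈ range M', ((((Icc 1 X).filter (fun a : ℕ =>
        (∀ p ∈ P, (p : ℤ) ∣ (a : ℤ) + gz a0 b0 (τ + c p)) ∧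
        (∀ p ∈ P', (p : ℤ) ∣ (a : ℤ) + gz a0 b0 (τ' + c' p)))).card : ℝ) - X / ((M : ℝ) * M'))| ≤ M' := by
    intro τ _
    refine (abs_sum_le_sum_abs _ _).trans ?_
    refine (sum_le_sum fun τ' _ => e2 τ τ').trans ?_
    rw [sum_const, card_range, nsmul_eq_mul, mul_one]
  refine (sum_le_sum e6).trans ?_
  rw [sum_const, card_range, nsmul_eq_mul]

lemma sqf_dvd {n : ℕ} (hn : Squarefree n) (y : ℤ) : (n : ℤ) ∣ y ↔ ∀ p ∈ n.primeFactors, (p : ℤ) ∣ y := by
  constructor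
  · intro h p hp
    exact (Int.natCast_dvd_natCast.2 (Nat.dvd_of_mem_primeFactors hp)).trans h
  · intro h
    have h1 : (∏ p ∈ n.primeFactors, p) ∣ y.natAbs := by
      apply Finset.prod_dvd_of_isRelPrime
      · intro p hp q hq hpq
        have := (Nat.coprime_primes (Nat.prime_of_mem_primeFactors hp) (Nat.prime_of_mem_primeFactors hq)).2 hpq
        exact Nat.coprime_iff_isRelPrime.1 this
      · intro p hp
        exact Int.natCast_dvd.1 (h p hp)
    rw [Nat.prod_primeFactors_of_squarefree hn] at h1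
    exact Int.natCast_dvd.2 h1

/-- the pairs without conflict -/
lemma trans {k : ℕ} (a0 b0 : ℤ) (h : Fin k → ℕ) {z R : ℕ} (h1 : 1 ≤ a0) (h2 : a0 ≤ z)
    {x : (Fin k → ℕ) × (Fin k → ℕ)} (hx : x ∈ NCF k z R) :
    ∃ c : ℕ → ℕ, (∀ p ∈ (mo x).primeFactors, p.Prime ∧ ¬ (p : ℤ) ∣ a0) ∧ ∏ p ∈ (mo x).primeFactors, p = mo x ∧
      (∀ a, roq a0 b0 h x a = GP a0 b0 (mo x).primeFactors c a) ∧
      (2 : ℝ) ^ (mo x).primeFactors.card ≤ ∏ l, ((lc x l).divisors.card : ℝ) := by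
  classical
  unfold NCF at hx
  rw [mem_filter, mem_product] at hx
  obtain ⟨⟨hx1, hx2⟩, hC⟩ := hx
  have hcop : ∀ u v, u ≠ v → (lc x u).Coprime (lc x v) := by
    unfold Conf at hC
    exact not_not.1 hC
  obtain ⟨r1, r2, r3⟩ := lc_rough hx1 hx2
  have hsq : Squarefree (mo x) := by
    unfold mo
    apply Finset.squarefree_prod_of_pairwise_isCoprime
    · intro u _ v _ huv
      exact Nat.coprime_iff_isRelPrime.1 (hcop u v huv)
    · intro u _
      exact r3 u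
  have hprod := Nat.prod_primeFactors_of_squarefree hsq
  have hdv : ∀ l, lc x l ∣ mo x := fun l => dvd_prod_of_mem (fun l => lc x l) (mem_univ l)
  have hex : ∀ p ∈ (mo x).primeFactors, ∃ l, p ∣ lc x l := by
    intro p hp
    have hpp := Nat.prime_of_mem_primeFactors hp
    have hd := Nat.dvd_of_mem_primeFactors hp
    unfold mo at hd
    obtain ⟨l, -, hl⟩ := (Prime.dvd_finset_prod_iff hpp.prime _).1 hd
    exact ⟨l, hl⟩
  have huni : ∀ p : ℕ, p.Prime → ∀ l m, p ∣ lc x l → p ∣ lc x m → l = m := by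
    intro p hp l m hl hm
    by_contra hne
    have := Nat.dvd_gcd hl hm
    rw [hcop l m hne] at this
    exact hp.one_lt.ne' (Nat.dvd_one.1 this)
  refine ⟨fun p => if hp : ∃ l, p ∣ lc x l then h hp.choose else 0, ?_, hprod, ?_, ?_⟩
  · intro p hp
    refine ⟨Nat.prime_of_mem_primeFactors hp, fun hd => ?_⟩
    obtain ⟨l, hl⟩ := hex p hp
    have hpz : ¬ p ∈ pz z := fun h => r2 l p h hl
    have h3 := Int.le_of_dvd (by omega) hd
    apply hpz
    rw [mem_pz]
    have hpp := Nat.prime_of_mem_primeFactors hp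
    exact ⟨by
      have : (p : ℤ) ≤ z := h3.trans h2
      have : p ≤ z := by exact_mod_cast this
      first
        | exact this
        | exact ⟨hpp.one_lt.le, this⟩, hpp⟩
  · intro a
    unfold roq GP
    rw [hprod]
    congr 1
    apply filter_congr
    intro τ _
    unfold Hit cq
    constructor
    · intro g p hp
      have he := hex p hp
      simp only [dif_pos he]
      have h4 := g he.choose
      rw [sub_neg_eq_add] at h4
      exact (Int.natCast_dvd_natCast.2 he.choose_spec).trans h4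
    · intro g l
      rw [sub_neg_eq_add, sqf_dvd (r3 l)]
      intro p hp
      have hpp := Nat.prime_of_mem_primeFactors hp
      have hpl := Nat.dvd_of_mem_primeFactors hp
      have hpm : p ∈ (mo x).primeFactors := Nat.mem_primeFactors.2 ⟨hpp, hpl.trans (hdv l), hsq.ne_zero⟩
      have he : ∃ l, p ∣ lc x l := ⟨l, hpl⟩
      have h4 := g p hpm
      simp only [dif_pos he] at h4
      rwa [huni p hpp _ l he.choose_spec hpl] at h4
  · have h3 : ∀ l, ((lc x l).divisors.card : ℝ) = 2 ^ (lc x l).primeFactors.card := by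
      intro l
      rw [card_div_sqf (r3 l)]
      push_cast
      rfl
    simp only [h3]
    rw [prod_pow_eq_pow_sum]
    apply pow_le_pow_right₀ (by norm_num)
    have h4 : (mo x).primeFactors ⊆ univ.biUnion fun l => (lc x l).primeFactors := by
      intro p hp
      obtain ⟨l, hl⟩ := hex p hp
      rw [mem_biUnion]
      exact ⟨l, mem_univ l, Nat.mem_primeFactors.2 ⟨Nat.prime_of_mem_primeFactors hp, hl, (r3 l).ne_zero⟩⟩
    exact (card_le_card h4).trans card_biUnion_le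

theorem t_R2 : S_R2 := by
  classical
  intro k a0 b0 h z R X h1 h2 x hx
  obtain ⟨c, c1, c2, c3, c4⟩ := trans a0 b0 h h1 h2 hx
  refine ⟨?_, fun x' hx' => ?_⟩
  · have g := GP_pair a0 b0 (mo x).primeFactors ∅ (fun p hp => (c1 p hp).1) (fun p hp => absurd hp (notMem_empty p))
      (fun p _ => notMem_empty p) c c X
    simp only [GP_empty, prod_empty, Nat.cast_one, mul_one] at g
    rw [c2] at g
    simp only [c3]
    exact g
  · obtain ⟨c', c1', c2', c3', c4'⟩ := trans a0 b0 h h1 h2 hx'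
    refine ⟨fun hc => ?_, ?_⟩
    · have g := GP_pair a0 b0 (mo x).primeFactors (mo x').primeFactors (fun p hp => (c1 p hp).1)
        (fun p hp => (c1' p hp).1) (fun p hp hp' => ?_) c c' X
      · rw [c2, c2'] at g
        simp only [c3, c3']
        exact g
      · have hpp := (c1 p hp).1
        have := Nat.dvd_gcd (Nat.dvd_of_mem_primeFactors hp) (Nat.dvd_of_mem_primeFactors hp')
        rw [hc] at this
        exact hpp.one_lt.ne' (Nat.dvd_one.1 this)
    · simp only [c3, c3']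
      set P := (mo x).primeFactors with hPd
      set P' := (mo x').primeFactors with hPd'
      have g := GP_pair a0 b0 (P \ P') P' (fun p hp => (c1 p (mem_sdiff.1 hp).1).1) (fun p hp => (c1' p hp).1)
        (fun p hp => (mem_sdiff.1 hp).2) c c' X
      have g1 : ∀ a ∈ Icc 1 X, (GP a0 b0 P c a : ℝ) * GP a0 b0 P' c' a ≤
          2 ^ (P ∩ P').card * ((GP a0 b0 (P \ P') c a : ℝ) * GP a0 b0 P' c' a) := by
        intro a _
        have e1 := GP_union a0 b0 (P \ P') (fun p hp => (c1 p (mem_sdiff.1 hp).1).1) c a (P ∩ P') (fun p hp =>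
          ⟨(c1 p (mem_inter.1 hp).1).1, (c1 p (mem_inter.1 hp).1).2, fun hm => (mem_sdiff.1 hm).2 (mem_inter.1 hp).2⟩)
        have e2 : P ∩ P' ∪ P \ P' = P := by
          ext p
          simp only [mem_union, mem_inter, mem_sdiff]
          tauto
        rw [e2] at e1
        have e3 : (GP a0 b0 P c a : ℝ) ≤ 2 ^ (P ∩ P').card * GP a0 b0 (P \ P') c a := by exact_mod_cast e1
        calc _ ≤ (2 ^ (P ∩ P').card * GP a0 b0 (P \ P') c a) * (GP a0 b0 P' c' a : ℝ) :=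
              mul_le_mul_of_nonneg_right e3 (Nat.cast_nonneg _)
          _ = _ := by ring
      refine (sum_le_sum g1).trans ?_
      rw [← mul_sum, mul_comm]
      have g2 : ∑ a ∈ Icc 1 X, (GP a0 b0 (P \ P') c a : ℝ) * GP a0 b0 P' c' a ≤ (X : ℝ) + mo x * mo x' := by
        have g3 := (abs_le.1 g).2
        rw [c2'] at g3
        have g4 : ((∏ p ∈ P \ P', p : ℕ) : ℝ) ≤ mo x := by
          have : ∏ p ∈ P \ P', p ≤ ∏ p ∈ P, p :=
            prod_le_prod_of_subset_of_one_le' sdiff_subset fun p hp _ => (c1 p hp).1.one_lt.le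
          rw [c2] at this
          exact_mod_cast this
        have g5 : ((∏ p ∈ P \ P', p : ℕ) : ℝ) * mo x' ≤ (mo x : ℝ) * mo x' :=
          mul_le_mul_of_nonneg_right g4 (Nat.cast_nonneg _)
        linarith
      have g6 : (2 : ℝ) ^ (P ∩ P').card ≤ ∏ l, ((lc x l).divisors.card : ℝ) :=
        (pow_le_pow_right₀ (by norm_num) (card_le_card inter_subset_left)).trans c4
      have g7 : (0 : ℝ) ≤ (X : ℝ) + mo x * mo x' := by positivity
      calc _ ≤ ((X : ℝ) + mo x * mo x') * 2 ^ (P ∩ P').card := mul_le_mul_of_nonneg_right g2 (by positivity)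
        _ ≤ _ := mul_le_mul_of_nonneg_left g6 g7

end Pool.Agent.L0h75.CL
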